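import Pool.Agent.W186.AI.Spec

set_option autoImplicit false

namespace Pool.Agent.W687.AI

open Complex Filter Topology Metric Set
open Pool.Agent.W186.AI

theorem schwarz {f : ℂ → ℂ} {r B : ℝ} (hr : 0 < r) (hd : DifferentiableOn ℂ f (ball 0 r))
    (h0 : f 0 = 0) (hB : ∀ w ∈ ball (0 : ℂ) r, ‖f w‖ ≤ B) :
    ∀ z ∈ ball (0 : ℂ) r, ‖dslope f 0 z‖ ≤ B / r := by
  intro z hz
  refine Complex.norm_dslope_le_div_of_mapsTo_ball hd ?_ hz
  intro w hw
  rw [h0, mem_closedBall_zero_iff]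
  exact hB w hw

theorem dslope_sub' {f g : ℂ → ℂ} (hf : DifferentiableAt ℂ f 0) (hg : DifferentiableAt ℂ g 0)
    (w : ℂ) : dslope (fun z => f z - g z) 0 w = dslope f 0 w - dslope g 0 w := by
  rcases eq_or_ne w 0 with rfl | hw
  · rw [dslope_same, dslope_same, dslope_same]
    exact deriv_sub hf hg
  · rw [dslope_of_ne _ hw, dslope_of_ne _ hw, dslope_of_ne _ hw]
    simp only [slope_def_field]
    ring

def Pp {A : Type} [TopologicalSpace A] (K : Set A) (r B : ℝ) (R : ℂ → A → ℂ) : Prop :=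
  (∀ x ∈ K, DifferentiableOn ℂ (fun w => R w x) (ball (0 : ℂ) r)) ∧
  (∀ x ∈ K, ∀ w ∈ ball (0 : ℂ) r, ‖R w x‖ ≤ B) ∧
  ContinuousOn (fun q : ℂ × A => R q.1 q.2) (ball (0 : ℂ) r ×ˢ K) ∧
  (∀ x0 ∈ K, ∃ (w : ℕ → ℂ) (x : ℕ → A), Tendsto w atTop (𝓝 0) ∧ (∀ n, w n ≠ 0 ∧ x n ∈ K) ∧
    Tendsto x atTop (𝓝 x0) ∧ ∀ k : ℕ, Tendsto (fun n => R (w n) (x n) / (w n) ^ k) atTop (𝓝 0))

theorem zero_at {A : Type} [TopologicalSpace A] {K : Set A} {r B : ℝ} {R : ℂ → A → ℂ} (hr : 0 < r)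
    (h : Pp K r B R) : ∀ x ∈ K, R 0 x = 0 := by
  intro x0 hx0
  obtain ⟨h1, h2, h3, h4⟩ := h
  obtain ⟨w, x, hw, hwx, hx, hk⟩ := h4 x0 hx0
  have hz := hk 0
  simp only [pow_zero, div_one] at hz
  have hc : ContinuousWithinAt (fun q : ℂ × A => R q.1 q.2) (ball (0 : ℂ) r ×ˢ K) (0, x0) :=
    h3 (0, x0) ⟨mem_ball_self hr, hx0⟩
  have ht : Tendsto (fun n => (w n, x n)) atTop (𝓝[ball (0 : ℂ) r ×ˢ K] (0, x0)) := by
    rw [tendsto_nhdsWithin_iff]
    refine ⟨hw.prodMk_nhds hx, ?_⟩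
    filter_upwards [hw.eventually (ball_mem_nhds (0 : ℂ) hr)] with n hn
    exact ⟨hn, (hwx n).2⟩
  exact tendsto_nhds_unique (hc.tendsto.comp ht) hz

theorem step {A : Type} [TopologicalSpace A] {K : Set A} {r B : ℝ} {R : ℂ → A → ℂ} (hr : 0 < r)
    (h : Pp K r B R) : Pp K r (B / r) (fun w x => dslope (fun z => R z x) 0 w) := by
  have hz := zero_at hr h
  obtain ⟨h1, h2, h3, h4⟩ := h
  have hb : ball (0 : ℂ) r ∈ 𝓝 (0 : ℂ) := ball_mem_nhds _ hr
  have hda : ∀ x ∈ K, DifferentiableOn ℂ (fun w => dslope (fun z => R z x) 0 w) (ball (0 : ℂ) r) :=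
    fun x hx => (Complex.differentiableOn_dslope hb).2 (h1 x hx)
  refine ⟨hda, fun x hx w hw => schwarz hr (h1 x hx) (hz x hx) (h2 x hx) w hw, ?_, ?_⟩
  · rintro ⟨w0, x0⟩ ⟨hw0, hx0⟩
    simp only at hw0 hx0
    rw [mem_ball_zero_iff] at hw0
    obtain ⟨ρ, hρ1, hρ2⟩ := exists_between hw0
    have hρ0 : 0 < ρ := lt_of_le_of_lt (norm_nonneg _) hρ1
    have hcb : closedBall (0 : ℂ) ρ ⊆ ball (0 : ℂ) r := closedBall_subset_ball hρ2
    have hcomp : IsCompact (closedBall (0 : ℂ) ρ) := isCompact_closedBall _ _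
    have hf : ContinuousOn (Function.uncurry (fun (x : A) (w : ℂ) => R w x))
        (K ×ˢ closedBall (0 : ℂ) ρ) := by
      have : Function.uncurry (fun (x : A) (w : ℂ) => R w x) =
          (fun q : ℂ × A => R q.1 q.2) ∘ Prod.swap := by
        ext ⟨a, b⟩; rfl
      rw [this]
      apply h3.comp continuous_swap.continuousOn
      rintro ⟨a, b⟩ ⟨ha, hb'⟩
      exact ⟨hcb hb', ha⟩
    rw [ContinuousWithinAt, Metric.tendsto_nhds]
    intro ε hε
    have hu : {p : ℂ × ℂ | dist p.1 p.2 < ρ * (ε / 4)} ∈ uniformity ℂ :=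
      Metric.dist_mem_uniformity (by positivity)
    obtain ⟨v, hv, hv2⟩ := hcomp.mem_uniformity_of_prod hf hx0 hu
    have hcw : ContinuousAt (fun w => dslope (fun z => R z x0) 0 w) w0 :=
      ((hda x0 hx0).differentiableAt (isOpen_ball.mem_nhds (by rwa [mem_ball_zero_iff]))).continuousAt
    have hcw' : ∀ᶠ w in 𝓝 w0, dist (dslope (fun z => R z x0) 0 w)
        (dslope (fun z => R z x0) 0 w0) < ε / 2 :=
      (Metric.tendsto_nhds.1 hcw) (ε / 2) (by positivity)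
    have hball : ∀ᶠ w in 𝓝 w0, w ∈ ball (0 : ℂ) ρ :=
      isOpen_ball.mem_nhds (by rwa [mem_ball_zero_iff])
    have hP1 : ∀ᶠ q : ℂ × A in 𝓝[ball (0 : ℂ) r ×ˢ K] (w0, x0),
        dist (dslope (fun z => R z x0) 0 q.1) (dslope (fun z => R z x0) 0 w0) < ε / 2 ∧
          q.1 ∈ ball (0 : ℂ) ρ := by
      apply (((hcw'.and hball)).prod_inl_nhds x0).filter_mono
      exact nhdsWithin_le_nhds
    have hP2 : ∀ᶠ q : ℂ × A in 𝓝[ball (0 : ℂ) r ×ˢ K] (w0, x0), q.2 ∈ v := by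
      have ht : Tendsto (fun q : ℂ × A => q.2) (𝓝[ball (0 : ℂ) r ×ˢ K] (w0, x0)) (𝓝[K] x0) := by
        rw [nhdsWithin_prod_eq]
        exact tendsto_snd
      exact ht hv
    filter_upwards [hP1, hP2, self_mem_nhdsWithin] with q hq1 hq2 hq3
    obtain ⟨w, x⟩ := q
    obtain ⟨hw, hx⟩ := hq3
    simp only at hw hx hq1 hq2 ⊢
    have hd0 : DifferentiableAt ℂ (fun z => R z x) 0 := (h1 x hx).differentiableAt hb
    have hd1 : DifferentiableAt ℂ (fun z => R z x0) 0 := (h1 x0 hx0).differentiableAt hb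
    have hsub := dslope_sub' hd0 hd1 w
    have hs : ‖dslope (fun z => R z x - R z x0) 0 w‖ ≤ (ρ * (ε / 4)) / ρ := by
      apply schwarz hρ0 _ _ _ w hq1.2
      · exact ((h1 x hx).sub (h1 x0 hx0)).mono (ball_subset_closedBall.trans hcb)
      · simp [hz x hx, hz x0 hx0]
      · intro z hz'
        have := hv2 x hq2 z (ball_subset_closedBall hz')
        simp only [mem_ofPred_eq, dist_eq_norm] at this
        exact this.le
    rw [hsub, mul_div_cancel_left₀ _ hρ0.ne'] at hs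
    calc dist (dslope (fun z => R z x) 0 w) (dslope (fun z => R z x0) 0 w0)
        ≤ dist (dslope (fun z => R z x) 0 w) (dslope (fun z => R z x0) 0 w) +
          dist (dslope (fun z => R z x0) 0 w) (dslope (fun z => R z x0) 0 w0) := dist_triangle _ _ _
      _ < ε / 4 + ε / 2 + ε / 4 := by
          rw [dist_eq_norm (dslope (fun z => R z x) 0 w)]
          linarith [hq1.1]
      _ = ε := by ring
  · intro x0 hx0
    obtain ⟨w, x, hw, hwx, hx, hk⟩ := h4 x0 hx0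
    refine ⟨w, x, hw, hwx, hx, fun k => ?_⟩
    refine (hk (k + 1)).congr (fun n => ?_)
    simp only
    rw [dslope_of_ne _ (hwx n).1, slope_def_field, hz (x n) (hwx n).2, sub_zero, sub_zero, div_div,
      pow_succ']

theorem bound {A : Type} [TopologicalSpace A] {K : Set A} {r : ℝ} (hr : 0 < r) (k : ℕ) :
    ∀ (B : ℝ) (R : ℂ → A → ℂ), Pp K r B R → ∀ x ∈ K, ∀ w ∈ ball (0 : ℂ) r,
      ‖R w x‖ ≤ (‖w‖ / r) ^ k * B := by
  induction k with
  | zero => intro B R h x hx w hw; simpa using h.2.1 x hx w hw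
  | succ k ih =>
    intro B R h x hx w hw
    have h' := ih _ _ (step hr h) x hx w hw
    have e : R w x = w * dslope (fun z => R z x) 0 w := by
      have := sub_smul_dslope (fun z => R z x) 0 w
      simp only [sub_zero, smul_eq_mul, zero_at hr h x hx] at this
      exact this.symm
    rw [e, norm_mul]
    calc ‖w‖ * ‖dslope (fun z => R z x) 0 w‖ ≤ ‖w‖ * ((‖w‖ / r) ^ k * (B / r)) :=
          mul_le_mul_of_nonneg_left h' (norm_nonneg _)
      _ = (‖w‖ / r) ^ (k + 1) * B := by rw [pow_succ]; ring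

theorem main : S_LEA := by
  intro A _ K r B R hr h1 h2 h3 h4 x hx w hw
  have h : Pp K r B R := ⟨h1, h2, h3, h4⟩
  have hq : ‖w‖ / r < 1 := by
    rw [div_lt_one hr]; rwa [mem_ball_zero_iff] at hw
  have hq0 : 0 ≤ ‖w‖ / r := by positivity
  have ht : Tendsto (fun k : ℕ => (‖w‖ / r) ^ k * B) atTop (𝓝 (0 * B)) :=
    (tendsto_pow_atTop_nhds_zero_of_lt_one hq0 hq).mul_const B
  have : ‖R w x‖ ≤ 0 * B := ge_of_tendsto' ht (fun k => bound hr k B R h x hx w hw)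
  rw [zero_mul] at this
  exact norm_le_zero_iff.1 this

end Pool.Agent.W687.AI
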